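import Pool.Agent.W545.Orb.Final
set_option autoImplicit false
open Metric
open scoped ContDiff InnerProductSpace Laplacian

/-!
# The Steklov spectrum does not detect singular points on the boundary of an orbifold

For every `n ≥ 3` let `Γ` be the group of sign changes `(ε₀ x₀, …, ε_{n-1} x_{n-1})` with `ε₀ = ε₁`
(it has order `2 ^ (n - 1)`).  The flat orbifold `closedBall 0 1 / Γ` has singular points on its
boundary and it is Steklov isospectral to the smooth ball `closedBall 0 (1 / 2)`.
-/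

namespace Pool.Agent.Results.MP_81485b_gt.BoundarySingUndetected

/-- Euclidean space of dimension `n`. -/
abbrev E (n : ℕ) := EuclideanSpace ℝ (Fin n)

/-- A flat orbifold ball: the compact Riemannian orbifold with boundary `closedBall 0 R / Γ`, where
`Γ` is a finite group of isometries of Euclidean `n`-space which fix the origin. -/
structure OrbifoldBall (n : ℕ) where
  /-- the radius -/
  R : ℝ
  /-- the group -/
  Γ : Subgroup (Equiv.Perm (E n))
  pos : 0 < R
  fin : Finite Γ
  isom : ∀ γ ∈ Γ, Isometry γ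
  fixes : ∀ γ ∈ Γ, γ 0 = 0

/-- `x` represents a singular point of the orbifold: its isotropy group is nontrivial. -/
def IsSingular {n : ℕ} (O : OrbifoldBall n) (x : E n) : Prop := ∃ γ ∈ O.Γ, γ ≠ 1 ∧ γ x = x

/-- `u` is smooth up to the boundary on the closed ball of radius `R`. -/
def Smooth {n : ℕ} (R : ℝ) (u : E n → ℝ) : Prop := ContDiffOn ℝ ∞ u (closedBall 0 R)

/-- `u` is harmonic in the open ball of radius `R`. -/
def Harmonic {n : ℕ} (R : ℝ) (u : E n → ℝ) : Prop := ∀ x ∈ ball (0 : E n) R, Δ u x = 0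

/-- The outward normal derivative of `u` at the point `x` of the sphere of radius `R`. -/
noncomputable def normalDeriv {n : ℕ} (R : ℝ) (u : E n → ℝ) (x : E n) : ℝ :=
  fderivWithin ℝ u (closedBall 0 R) x (R⁻¹ • x)

/-- `u` solves the Steklov problem with parameter `σ` on the orbifold `closedBall 0 R / Γ`: it is a
function on the closed ball (set to zero outside it) which is smooth up to the boundary and
`Γ`-invariant (that is, a smooth function on the orbifold), harmonic in the interior, and with outward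
normal derivative `σ u` on the boundary. -/
structure IsSteklov {n : ℕ} (O : OrbifoldBall n) (σ : ℝ) (u : E n → ℝ) : Prop where
  off : ∀ x, x ∉ closedBall (0 : E n) O.R → u x = 0
  smooth : Smooth O.R u
  inv : ∀ γ ∈ O.Γ, ∀ x ∈ closedBall (0 : E n) O.R, u (γ x) = u x
  harmonic : Harmonic O.R u
  bdry : ∀ x ∈ sphere (0 : E n) O.R, normalDeriv O.R u x = σ * u x

/-- the linear isometries which belong to `Γ` -/
def lin {n : ℕ} (O : OrbifoldBall n) : Subgroup (E n ≃ₗᵢ[ℝ] E n) where
  carrier := {L | L.toEquiv ∈ O.Γ}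
  mul_mem' := fun ha hb => O.Γ.mul_mem ha hb
  one_mem' := O.Γ.one_mem
  inv_mem' := fun ha => O.Γ.inv_mem ha

theorem lin_surj {n : ℕ} (O : OrbifoldBall n) {γ : Equiv.Perm (E n)} (h : γ ∈ O.Γ) :
    ∃ L ∈ lin O, ∀ x, L x = γ x := by
  let f : E n ≃ᵢ E n := ⟨γ, O.isom γ h⟩
  have hf0 : f 0 = 0 := O.fixes γ h
  refine ⟨(f.toRealLinearIsometryEquivOfMapZero hf0), ?_, fun x => rfl⟩
  show (f.toRealLinearIsometryEquivOfMapZero hf0).toEquiv ∈ O.Γ
  have : (f.toRealLinearIsometryEquivOfMapZero hf0).toEquiv = γ := by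
    ext x
    rfl
  rw [this]
  exact h

theorem isSteklov_iff {n : ℕ} (O : OrbifoldBall n) (σ : ℝ) (u : E n → ℝ) :
    IsSteklov O σ u ↔ u ∈ Pool.Agent.W545.Orb.steklovSpace n O.R (lin O) σ := by
  constructor
  · rintro ⟨h1, h2, h3, h4, h5⟩
    exact ⟨h1, h2, h4, h5, fun L hL x hx => h3 _ hL x hx⟩
  · rintro ⟨h1, h2, h4, h5, h3⟩
    refine ⟨h1, h2, ?_, h4, h5⟩
    intro γ hγ x hx
    obtain ⟨L, hL, hLx⟩ := lin_surj O hγ
    rw [← hLx]
    exact h3 L hL x hx

theorem add_mem {n : ℕ} (O : OrbifoldBall n) (σ : ℝ) {u v : E n → ℝ}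
    (hu : IsSteklov O σ u) (hv : IsSteklov O σ v) : IsSteklov O σ (u + v) := by
  rw [isSteklov_iff] at *
  exact Submodule.add_mem _ hu hv

theorem zero_mem {n : ℕ} (O : OrbifoldBall n) (σ : ℝ) : IsSteklov O σ 0 := by
  rw [isSteklov_iff] at *
  exact Submodule.zero_mem _

theorem smul_mem {n : ℕ} (O : OrbifoldBall n) (σ : ℝ) (c : ℝ) {u : E n → ℝ}
    (hu : IsSteklov O σ u) : IsSteklov O σ (c • u) := by
  rw [isSteklov_iff] at *
  exact Submodule.smul_mem _ c hu

/-- The Steklov eigenspace of the orbifold for `σ`; it is nonzero exactly when `σ` is a Steklov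
eigenvalue, and its dimension is the multiplicity of `σ`. -/
def eigenspace {n : ℕ} (O : OrbifoldBall n) (σ : ℝ) : Submodule ℝ (E n → ℝ) where
  carrier := {u | IsSteklov O σ u}
  add_mem' := add_mem O σ
  zero_mem' := zero_mem O σ
  smul_mem' := smul_mem O σ

/-- Two orbifold balls are Steklov isospectral: every real number has the same finite multiplicity
as a Steklov eigenvalue of both. -/
def Isospectral {n : ℕ} (O₁ O₂ : OrbifoldBall n) : Prop :=
  ∀ σ : ℝ, FiniteDimensional ℝ (eigenspace O₁ σ) ∧ FiniteDimensional ℝ (eigenspace O₂ σ) ∧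
    Module.finrank ℝ (eigenspace O₁ σ) = Module.finrank ℝ (eigenspace O₂ σ)

theorem eigenspace_eq {n : ℕ} (O : OrbifoldBall n) (σ : ℝ) :
    eigenspace O σ = Pool.Agent.W545.Orb.steklovSpace n O.R (lin O) σ := by
  ext u
  exact isSteklov_iff O σ u

open Pool.Agent.W545.Orb in
/-- the orbifold ball attached to a group of sign vectors -/
noncomputable def signOrb {n : ℕ} (S : Subgroup (Fin n → ℤˣ)) (R : ℝ) (hR : 0 < R) : OrbifoldBall n where
  R := R
  Γ := (signGroup S).map
    { toFun := fun L => L.toEquiv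
      map_one' := rfl
      map_mul' := fun _ _ => rfl }
  pos := hR
  fin := by
    have := finite_signGroup S
    exact ((Set.toFinite (signGroup S : Set (E n ≃ₗᵢ[ℝ] E n))).image _).to_subtype
  isom := by
    rintro γ ⟨L, hL, rfl⟩
    exact L.isometry
  fixes := by
    rintro γ ⟨L, hL, rfl⟩
    exact L.map_zero

open Pool.Agent.W545.Orb in
theorem lin_signOrb {n : ℕ} (S : Subgroup (Fin n → ℤˣ)) (R : ℝ) (hR : 0 < R) :
    lin (signOrb S R hR) = signGroup S := by
  ext L
  constructor
  · rintro ⟨L', hL', h⟩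
    have : L' = L := by
      ext x i
      have := congrArg (fun e : Equiv.Perm (E n) => e x i) h
      exact this
    rwa [← this]
  · intro h
    exact ⟨L, h, rfl⟩

/-- In every dimension `n ≥ 3` there are two compact flat Riemannian orbifolds with boundary which are
Steklov isospectral, the first one with a singular point on its boundary and the second one without
singular points on its boundary. -/
theorem result (n : ℕ) (hn : 3 ≤ n) : ∃ O₁ O₂ : OrbifoldBall n, Isospectral O₁ O₂ ∧
    (∃ x ∈ sphere (0 : E n) O₁.R, IsSingular O₁ x) ∧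
    (∀ x ∈ sphere (0 : E n) O₂.R, ¬ IsSingular O₂ x) := by
  have h01 : (⟨0, by omega⟩ : Fin n) ≠ ⟨1, by omega⟩ := by simp
  have h0 : (⟨0, by omega⟩ : Fin n) ≠ ⟨2, by omega⟩ := by simp
  have h1 : (⟨1, by omega⟩ : Fin n) ≠ ⟨2, by omega⟩ := by simp
  refine ⟨signOrb (Pool.Agent.W545.Orb.S1 ⟨0, by omega⟩ ⟨1, by omega⟩) 1 one_pos,
    signOrb ⊥ (1 / 2) (by norm_num), ?_, ?_, ?_⟩
  · intro σ
    rw [eigenspace_eq, eigenspace_eq, lin_signOrb, lin_signOrb, Pool.Agent.W545.Orb.signGroup_bot]
    exact Pool.Agent.W545.Orb.isospectral h01 h0 h1 σ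
  · obtain ⟨x, hx, γ, hγ, hne, hfix⟩ := Pool.Agent.W545.Orb.singular h0 h1
    refine ⟨x, hx, γ.toEquiv, ⟨γ, hγ, rfl⟩, ?_, hfix⟩
    intro h
    apply hne
    ext y i
    exact congrArg (fun e : Equiv.Perm (E n) => e y i) h
  · rintro x - ⟨γ, ⟨L, hL, rfl⟩, hne, -⟩
    rw [SetLike.mem_coe, Pool.Agent.W545.Orb.signGroup_bot, Subgroup.mem_bot] at hL
    subst hL
    exact hne rfl

end Pool.Agent.Results.MP_81485b_gt.BoundarySingUndetected
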